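import Mathlib

/-!
# Oriented L(2,1)-labelings: in- and outdegree `k` can force span `2k^2`

For every `k ≥ 1` we construct a finite oriented graph in which every vertex has indegree `k` and
outdegree `k`, and whose oriented `L(2,1)`-labeling number is at least `2 k ^ 2`.

Vertices: two copies of `ZMod N`, `N = 2 k ^ 2 + 1`.  Arcs: `(w, false) → (w - a, true)` for
`0 ≤ a < k`, and `(x, true) → (x + b k, false)` for `1 ≤ b ≤ k`.  The differences `b k - a` run
through `1, …, k ^ 2`, so any two vertices of the first copy are joined by a directed path of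
length two in one of the two directions.
-/

set_option autoImplicit false

namespace Pool.Agent.Results.MP_fff0e1_co.TwoKSquared

/-- `f` is an `L(2,1)`-labeling of the digraph `G` with labels in `{0, 1, …, m}`: labels of
vertices joined by an arc (in either direction) differ by at least `2`, and labels of vertices
joined by a directed path `u → w → v` of length two differ by at least `1`.  (Labels are compared as
integers.) -/
def IsLabeling {V : Type} (G : Digraph V) (m : ℕ) (f : V → ℕ) : Prop :=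
  (∀ v, f v ≤ m) ∧
  (∀ u v, G.Adj u v → 2 ≤ |(f u : ℤ) - (f v : ℤ)|) ∧
  (∀ u w v, G.Adj u w → G.Adj w v → 1 ≤ |(f u : ℤ) - (f v : ℤ)|)

/-- The oriented `L(2,1)`-labeling number of `G`: the least `m` such that `G` has an
`L(2,1)`-labeling with labels in `{0, 1, …, m}`. -/
noncomputable def lam {V : Type} (G : Digraph V) : ℕ :=
  sInf {m : ℕ | ∃ f : V → ℕ, IsLabeling G m f}

/-- The order of one half of the graph. -/
def NN (k : ℕ) : ℕ := 2 * k ^ 2 + 1

instance (k : ℕ) : NeZero (NN k) := ⟨by unfold NN; omega⟩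

/-- The graph of the construction. -/
def GG (k : ℕ) : Digraph (ZMod (NN k) × Bool) where
  Adj p q :=
    (p.2 = false ∧ q.2 = true ∧ ∃ a : ℕ, a < k ∧ q.1 + (a : ZMod (NN k)) = p.1) ∨
    (p.2 = true ∧ q.2 = false ∧ ∃ b : ℕ, b < k ∧ q.1 = p.1 + (((b + 1) * k : ℕ) : ZMod (NN k)))

lemma cast_inj {k : ℕ} {a b : ℕ} (ha : a < NN k) (hb : b < NN k)
    (h : (a : ZMod (NN k)) = (b : ZMod (NN k))) : a = b := by
  have := (ZMod.natCast_eq_natCast_iff' a b (NN k)).1 h
  rwa [Nat.mod_eq_of_lt ha, Nat.mod_eq_of_lt hb] at this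

lemma lt_NN_of_lt {k a : ℕ} (ha : a < k) : a < NN k := by
  unfold NN
  nlinarith

lemma mul_lt_NN {k b : ℕ} (hb : b < k) : (b + 1) * k < NN k := by
  unfold NN
  nlinarith

lemma oriented (k : ℕ) (p q : ZMod (NN k) × Bool) (h : (GG k).Adj p q) : ¬ (GG k).Adj q p := by
  intro h'
  rcases h with ⟨hp, hq, a, ha, hpa⟩ | ⟨hp, hq, b, hb, hpb⟩
  · rcases h' with ⟨hq', -⟩ | ⟨-, -, b, hb, hb'⟩
    · rw [hq] at hq'; exact absurd hq' (by simp)
    · have h1 : (((b + 1) * k : ℕ) : ZMod (NN k)) = (a : ZMod (NN k)) := by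
        have : q.1 + (((b + 1) * k : ℕ) : ZMod (NN k)) = q.1 + (a : ZMod (NN k)) := by
          rw [← hb', hpa]
        exact add_left_cancel this
      have h2 := cast_inj (mul_lt_NN hb) (lt_NN_of_lt ha) h1
      nlinarith
  · rcases h' with ⟨-, -, a, ha, ha'⟩ | ⟨hq', -⟩
    · have h1 : (((b + 1) * k : ℕ) : ZMod (NN k)) = (a : ZMod (NN k)) := by
        have : p.1 + (((b + 1) * k : ℕ) : ZMod (NN k)) = p.1 + (a : ZMod (NN k)) := by
          rw [← hpb, ha']
        exact add_left_cancel this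
      have h2 := cast_inj (mul_lt_NN hb) (lt_NN_of_lt ha) h1
      nlinarith
    · rw [hq] at hq'; exact absurd hq' (by simp)

lemma card_eq_k {k : ℕ} {P : ZMod (NN k) × Bool → Prop} (g : ℕ → ZMod (NN k) × Bool)
    (h1 : ∀ a, a < k → P (g a)) (h2 : ∀ p, P p → ∃ a, a < k ∧ g a = p)
    (h3 : ∀ a b, a < k → b < k → g a = g b → a = b) : Nat.card {p // P p} = k := by
  have e : Function.Bijective (fun a : Fin k => (⟨g a, h1 a a.2⟩ : {p // P p})) := by
    constructor
    · intro a b hab
      have : g a = g b := by simpa using hab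
      exact Fin.ext (h3 a b a.2 b.2 this)
    · rintro ⟨p, hp⟩
      obtain ⟨a, ha, hga⟩ := h2 p hp
      exact ⟨⟨a, ha⟩, by simpa using hga⟩
  have := Nat.card_eq_of_bijective _ e
  simpa using this.symm

lemma out_card (k : ℕ) (p : ZMod (NN k) × Bool) : Nat.card {q // (GG k).Adj p q} = k := by
  obtain ⟨x, s⟩ := p
  cases s
  · refine card_eq_k (fun a => (x - (a : ZMod (NN k)), true)) ?_ ?_ ?_
    · intro a ha
      exact Or.inl ⟨rfl, rfl, a, ha, by simp⟩
    · rintro ⟨y, t⟩ hq
      rcases hq with ⟨-, ht, a, ha, hpa⟩ | ⟨h, -⟩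
      · refine ⟨a, ha, ?_⟩
        simp only at ht hpa
        rw [ht, ← hpa]; simp
      · exact absurd h (by simp)
    · intro a b ha hb hab
      have : (a : ZMod (NN k)) = (b : ZMod (NN k)) := by
        have := congrArg Prod.fst hab
        simpa using this
      exact cast_inj (lt_NN_of_lt ha) (lt_NN_of_lt hb) this
  · refine card_eq_k (fun b => (x + (((b + 1) * k : ℕ) : ZMod (NN k)), false)) ?_ ?_ ?_
    · intro b hb
      exact Or.inr ⟨rfl, rfl, b, hb, rfl⟩
    · rintro ⟨y, t⟩ hq
      rcases hq with ⟨h, -⟩ | ⟨-, ht, b, hb, hpb⟩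
      · exact absurd h (by simp)
      · refine ⟨b, hb, ?_⟩
        simp only at ht hpb
        rw [ht, hpb]
    · intro a b ha hb hab
      have h : (((a + 1) * k : ℕ) : ZMod (NN k)) = (((b + 1) * k : ℕ) : ZMod (NN k)) := by
        have := congrArg Prod.fst hab
        exact add_left_cancel this
      have h2 := cast_inj (mul_lt_NN ha) (mul_lt_NN hb) h
      have hk : 0 < k := by omega
      have := Nat.eq_of_mul_eq_mul_right hk h2
      omega

lemma in_card (k : ℕ) (p : ZMod (NN k) × Bool) : Nat.card {q // (GG k).Adj q p} = k := by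
  obtain ⟨x, s⟩ := p
  cases s
  · refine card_eq_k (fun b => (x - (((b + 1) * k : ℕ) : ZMod (NN k)), true)) ?_ ?_ ?_
    · intro b hb
      exact Or.inr ⟨rfl, rfl, b, hb, by simp⟩
    · rintro ⟨y, t⟩ hq
      rcases hq with ⟨-, h, -⟩ | ⟨ht, -, b, hb, hpb⟩
      · exact absurd h (by simp)
      · refine ⟨b, hb, ?_⟩
        simp only at ht hpb
        rw [ht, hpb]; simp
    · intro a b ha hb hab
      have h : (((a + 1) * k : ℕ) : ZMod (NN k)) = (((b + 1) * k : ℕ) : ZMod (NN k)) := by
        have := congrArg Prod.fst hab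
        exact sub_right_injective this
      have h2 := cast_inj (mul_lt_NN ha) (mul_lt_NN hb) h
      have hk : 0 < k := by omega
      have := Nat.eq_of_mul_eq_mul_right hk h2
      omega
  · refine card_eq_k (fun a => (x + (a : ZMod (NN k)), false)) ?_ ?_ ?_
    · intro a ha
      exact Or.inl ⟨rfl, rfl, a, ha, rfl⟩
    · rintro ⟨y, t⟩ hq
      rcases hq with ⟨ht, -, a, ha, hpa⟩ | ⟨-, h, -⟩
      · refine ⟨a, ha, ?_⟩
        simp only at ht hpa
        rw [ht, ← hpa]
      · exact absurd h (by simp)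
    · intro a b ha hb hab
      have : (a : ZMod (NN k)) = (b : ZMod (NN k)) := by
        have := congrArg Prod.fst hab
        exact add_left_cancel this
      exact cast_inj (lt_NN_of_lt ha) (lt_NN_of_lt hb) this

/-- Every `d` with `1 ≤ d ≤ k ^ 2` is `(b + 1) k - a` with `a, b < k`. -/
lemma repr {k d : ℕ} (hk : 1 ≤ k) (h1 : 1 ≤ d) (h2 : d ≤ k ^ 2) :
    ∃ a b : ℕ, a < k ∧ b < k ∧ d + a = (b + 1) * k := by
  have hdm := Nat.div_add_mod (d - 1) k
  have hml := Nat.mod_lt (d - 1) (show 0 < k by omega)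
  refine ⟨k - 1 - (d - 1) % k, (d - 1) / k, by omega, ?_, ?_⟩
  · rw [Nat.div_lt_iff_lt_mul (by omega)]
    have := sq k
    omega
  · have : ((d - 1) / k + 1) * k = k * ((d - 1) / k) + k := by ring
    rw [this]; omega

/-- Two vertices of the first copy whose difference is in `1, …, k ^ 2` are joined by a directed
path of length two. -/
lemma path {k d : ℕ} (hk : 1 ≤ k) (h1 : 1 ≤ d) (h2 : d ≤ k ^ 2) (x : ZMod (NN k)) :
    ∃ w, (GG k).Adj (x, false) w ∧ (GG k).Adj w (x + (d : ZMod (NN k)), false) := by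
  obtain ⟨a, b, ha, hb, hab⟩ := repr hk h1 h2
  refine ⟨(x - (a : ZMod (NN k)), true), Or.inl ⟨rfl, rfl, a, ha, by simp⟩,
    Or.inr ⟨rfl, rfl, b, hb, ?_⟩⟩
  rw [← hab]
  push_cast
  ring

lemma inj_of_labeling {k m : ℕ} (hk : 1 ≤ k) {f : ZMod (NN k) × Bool → ℕ}
    (hf : IsLabeling (GG k) m f) : Function.Injective (fun x : ZMod (NN k) => f (x, false)) := by
  intro x y hxy
  by_contra hne
  simp only at hxy
  set d : ℕ := (y - x).val with hd
  have hdlt : d < NN k := ZMod.val_lt _
  have hd0 : d ≠ 0 := by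
    intro h0
    have : y - x = 0 := (ZMod.val_eq_zero _).1 (by rw [← hd, h0])
    exact hne (sub_eq_zero.1 this).symm
  have hdc : (d : ZMod (NN k)) = y - x := by rw [hd, ZMod.natCast_zmod_val]
  by_cases hle : d ≤ k ^ 2
  · obtain ⟨w, h1, h2⟩ := path hk (by omega) hle x
    have hy : x + (d : ZMod (NN k)) = y := by rw [hdc]; ring
    rw [hy] at h2
    have := hf.2.2 _ _ _ h1 h2
    rw [hxy] at this
    simp at this
  · have hNd : NN k - d ≤ k ^ 2 := by unfold NN; omega
    obtain ⟨w, h1, h2⟩ := path hk (d := NN k - d) (by omega) hNd y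
    have hx : y + ((NN k - d : ℕ) : ZMod (NN k)) = x := by
      rw [Nat.cast_sub hdlt.le, hdc, ZMod.natCast_self]; ring
    rw [hx] at h2
    have := hf.2.2 _ _ _ h1 h2
    rw [hxy] at this
    simp at this

lemma le_of_labeling {k m : ℕ} (hk : 1 ≤ k) {f : ZMod (NN k) × Bool → ℕ}
    (hf : IsLabeling (GG k) m f) : 2 * k ^ 2 ≤ m := by
  have hinj := inj_of_labeling hk hf
  have h1 : Function.Injective
      (fun x : ZMod (NN k) => (⟨f (x, false), Nat.lt_succ_of_le (hf.1 _)⟩ : Fin (m + 1))) := by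
    intro x y hxy
    exact hinj (by simpa using hxy)
  have := Fintype.card_le_of_injective _ h1
  rw [ZMod.card, Fintype.card_fin] at this
  unfold NN at this
  omega

/-- Every finite oriented graph has a labeling. -/
lemma exists_labeling {V : Type} [Fintype V] (G : Digraph V) (hG : ∀ u v, G.Adj u v → ¬ G.Adj v u) :
    ∃ m, ∃ f : V → ℕ, IsLabeling G m f := by
  classical
  let e := Fintype.equivFin V
  refine ⟨2 * Fintype.card V, fun v => 2 * (e v : ℕ), ?_, ?_, ?_⟩
  · intro v
    have := (e v).2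
    show 2 * (e v : ℕ) ≤ _
    omega
  · intro u v huv
    have hne : u ≠ v := by
      rintro rfl
      exact hG _ _ huv huv
    have : (e u : ℕ) ≠ (e v : ℕ) := fun h => hne (e.injective (Fin.ext h))
    rw [le_abs]
    push_cast
    omega
  · intro u w v huw hwv
    have hne : u ≠ v := by
      rintro rfl
      exact hG _ _ huw hwv
    have : (e u : ℕ) ≠ (e v : ℕ) := fun h => hne (e.injective (Fin.ext h))
    rw [le_abs]
    push_cast
    omega

/-- **Oriented graphs with in- and outdegrees `k` and `L(2,1)`-labeling number at least `2k²`.**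
For every `k ≥ 1` there is a finite oriented graph `G` (no loops, no pair of opposite arcs) in which
every vertex has outdegree exactly `k` and indegree exactly `k`, and `lam G ≥ 2 * k ^ 2`. -/
theorem result : ∀ k : ℕ, 1 ≤ k →
    ∃ (V : Type) (_ : Fintype V) (G : Digraph V),
      (∀ u v, G.Adj u v → ¬ G.Adj v u) ∧
      (∀ v, Nat.card {w // G.Adj v w} = k) ∧
      (∀ v, Nat.card {w // G.Adj w v} = k) ∧
      2 * k ^ 2 ≤ lam G := by
  intro k hk
  refine ⟨ZMod (NN k) × Bool, inferInstance, GG k, oriented k, out_card k, in_card k, ?_⟩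
  obtain ⟨f, hf⟩ := Nat.sInf_mem (exists_labeling (GG k) (oriented k))
  exact le_of_labeling hk hf

end Pool.Agent.Results.MP_fff0e1_co.TwoKSquared
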